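import Mathlib
import Pool.Agent.N176.GW.Stm

set_option autoImplicit false

/-!
# The exponential moment of the number of exponents in a block, real bases (helper966)

After `Pool.Agent.N176.SH.EX`.
-/

namespace Pool.Agent.N966.GW

open Finset Filter Topology MeasureTheory
open Pool.Agent.N176.GP (card_primes log_div_le)
open Pool.Agent.H305R2 (roughPart)
open Pool.Agent.N176.OW (VT)
open Pool.Agent.N176.GW

lemma choose_bound (m k : ℕ) {u : ℝ} (hu : 0 ≤ u) :
    (m.choose k : ℝ) * (u * k) ^ k ≤ (Real.exp 1 * (u * m)) ^ k := by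
  have h1 : (m.choose k : ℝ) ≤ (m : ℝ) ^ k / k.factorial := Nat.choose_le_pow_div k m
  have h2 : (k : ℝ) ^ k / k.factorial ≤ Real.exp k :=
    Real.pow_div_factorial_le_exp _ (Nat.cast_nonneg k) k
  have h3 : Real.exp (k:ℝ) = Real.exp 1 ^ k := by rw [← Real.exp_nat_mul, mul_one]
  calc (m.choose k : ℝ) * (u * k) ^ k ≤ (m : ℝ) ^ k / k.factorial * (u * k) ^ k := by gcongr
    _ = (u * m) ^ k * ((k : ℝ) ^ k / k.factorial) := by rw [mul_pow, mul_pow]; ring
    _ ≤ (u * m) ^ k * Real.exp 1 ^ k := by rw [← h3]; gcongr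
    _ = _ := by rw [← mul_pow, mul_comm]

lemma geo_bound {y : ℝ} (hy : 0 ≤ y) (hy2 : y ≤ 1 / 2) (m : ℕ) :
    ∑ k ∈ range m, (if 1 ≤ k then y ^ k else 0) ≤ 2 * y := by
  cases m with
  | zero =>
    rw [Finset.range_zero, Finset.sum_empty]
    linarith
  | succ n =>
    rw [Finset.sum_range_succ']
    have h1 : ∑ k ∈ range n, (if 1 ≤ k + 1 then y ^ (k + 1) else 0) ≤
        ∑ k ∈ range n, y * (1 / (2 : ℝ)) ^ k := by
      refine Finset.sum_le_sum fun k _ => ?_
      rw [if_pos (by omega), pow_succ, mul_comm]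
      exact mul_le_mul_of_nonneg_left (pow_le_pow_left₀ hy hy2 k) hy
    rw [← Finset.mul_sum] at h1
    have h2 := sum_geometric_two_le n
    have h3 : y * ∑ k ∈ range n, (1 / (2 : ℝ)) ^ k ≤ y * 2 := mul_le_mul_of_nonneg_left h2 hy
    rw [if_neg (by omega), add_zero]
    linarith

lemma choose_low {K k : ℕ} (hk : 1 ≤ k) (hK : 2 * k ≤ K) :
    ((K : ℝ) / (2 * k)) ^ k ≤ ((K + 1).choose k : ℝ) := by
  have h1 : (((K + 1 + 1 - k : ℕ) : ℝ) ^ k) / k.factorial ≤ ((K + 1).choose k : ℝ) :=
    Nat.pow_le_choose k (K + 1)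
  have h2 : (k.factorial : ℝ) ≤ (k : ℝ) ^ k := by exact_mod_cast Nat.factorial_le_pow k
  have hk0 : (0 : ℝ) < k := by exact_mod_cast hk
  refine le_trans ?_ h1
  have h3 : (K : ℝ) / 2 ≤ ((K + 1 + 1 - k : ℕ) : ℝ) := by
    rw [div_le_iff₀ (by norm_num)]
    exact_mod_cast (by omega : K ≤ (K + 1 + 1 - k) * 2)
  calc ((K : ℝ) / (2 * k)) ^ k = ((K : ℝ) / 2) ^ k / (k : ℝ) ^ k := by
        rw [← div_pow]
        congr 1
        field_simp
    _ ≤ ((K + 1 + 1 - k : ℕ) : ℝ) ^ k / k.factorial := by gcongr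

section block

variable {α : ℝ} {g : ℕ → ℝ} {t x z j K : ℕ} {T : Finset ℕ} {C W s lx : ℝ}

lemma hits_sub (n : ℕ) : hits α g T t n ⊆ T := Finset.filter_subset _ _

open Classical in
lemma swap (𝓕 : Finset (Finset ℕ)) (B : Finset ℕ → ℝ) (c : ℕ → ℝ)
    (h : ∀ F ∈ 𝓕, (((cell α z t j).filter
      (fun n => ¬ Big α g T t x n ∧ F ⊆ hits α g T t n)).card : ℝ) * c F.card ≤ B F) :
    ∑ n ∈ (cell α z t j).filter (fun n => ¬ Big α g T t x n),
      ∑ F ∈ 𝓕.filter (fun F => F ⊆ hits α g T t n), c F.card ≤ ∑ F ∈ 𝓕, B F := by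
  have h' : ∀ F ∈ 𝓕, ∑ n ∈ (cell α z t j).filter
      (fun n => ¬ Big α g T t x n ∧ F ⊆ hits α g T t n), c F.card ≤ B F := by
    intro F hF
    rw [Finset.sum_const, nsmul_eq_mul]
    exact h F hF
  refine le_trans (le_of_eq ?_) (Finset.sum_le_sum h')
  apply Finset.sum_comm'
  intro n F
  simp only [Finset.mem_filter]
  tauto

open Classical in
lemma step1 (hs : 0 ≤ s)
    (hE : ∀ F ⊆ T, F.Nonempty → F.card ≤ K →
      (((cell α z t j).filter (fun n => ¬ Big α g T t x n ∧ F ⊆ hits α g T t n)).card : ℝ) ≤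
        (C * F.card * lx) ^ F.card * W)
    (hC : 0 ≤ C) (hlx : 0 ≤ lx) (hW : 0 ≤ W) {y : ℝ}
    (hy : Real.exp 1 * (C * s * lx * T.card) ≤ y) (hy2 : y ≤ 1 / 2) :
    ∑ n ∈ (cell α z t j).filter (fun n => ¬ Big α g T t x n ∧ (hits α g T t n).card ≤ K),
      ((1 + s) ^ (hits α g T t n).card - 1) ≤ 2 * y * W := by
  set 𝓕 : Finset (Finset ℕ) := T.powerset.filter (fun F => F.Nonempty ∧ F.card ≤ K) with h𝓕
  have hsw := swap (α := α) (g := g) (t := t) (x := x) (z := z) (j := j) (T := T) 𝓕
    (fun F => (C * s * F.card * lx) ^ F.card * W) (fun k => s ^ k) (fun F hF => by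
      rw [h𝓕, Finset.mem_filter, Finset.mem_powerset] at hF
      have h1 := hE F hF.1 hF.2.1 hF.2.2
      calc _ ≤ (C * F.card * lx) ^ F.card * W * s ^ F.card :=
            mul_le_mul_of_nonneg_right h1 (by positivity)
        _ = ((C * F.card * lx) ^ F.card * s ^ F.card) * W := by ring
        _ = _ := by
          rw [← mul_pow]
          congr 2
          ring)
  have hy0 : 0 ≤ y := le_trans (by positivity) hy
  -- pointwise
  have hpt : ∀ n, (hits α g T t n).card ≤ K → (1 + s) ^ (hits α g T t n).card - 1 ≤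
      ∑ F ∈ 𝓕.filter (fun F => F ⊆ hits α g T t n), s ^ F.card := by
    intro n hn
    have e2 : (1 + s) ^ (hits α g T t n).card = ∑ F ∈ (hits α g T t n).powerset, s ^ F.card := by
      rw [← Finset.prod_const, Finset.prod_one_add]
      exact Finset.sum_congr rfl fun F _ => Finset.prod_const s
    rw [← Finset.add_sum_erase _ _ (Finset.empty_mem_powerset _), Finset.card_empty,
      pow_zero] at e2
    have e3 : ∑ F ∈ (hits α g T t n).powerset.erase ∅, s ^ F.card ≤
        ∑ F ∈ 𝓕.filter (fun F => F ⊆ hits α g T t n), s ^ F.card := by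
      refine Finset.sum_le_sum_of_subset_of_nonneg ?_ fun F _ _ => by positivity
      intro F hF
      rw [Finset.mem_erase, Finset.mem_powerset] at hF
      rw [Finset.mem_filter, h𝓕, Finset.mem_filter, Finset.mem_powerset]
      exact ⟨⟨hF.2.trans (hits_sub n), Finset.nonempty_iff_ne_empty.2 hF.1,
        (Finset.card_le_card hF.2).trans hn⟩, hF.2⟩
    linarith
  have h1 : ∑ n ∈ (cell α z t j).filter (fun n => ¬ Big α g T t x n ∧ (hits α g T t n).card ≤ K),
      ((1 + s) ^ (hits α g T t n).card - 1) ≤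
      ∑ n ∈ (cell α z t j).filter (fun n => ¬ Big α g T t x n),
        ∑ F ∈ 𝓕.filter (fun F => F ⊆ hits α g T t n), s ^ F.card := by
    refine (Finset.sum_le_sum fun n hn => hpt n (Finset.mem_filter.1 hn).2.2).trans ?_
    refine Finset.sum_le_sum_of_subset_of_nonneg ?_ fun n _ _ => Finset.sum_nonneg fun F _ => by
      positivity
    intro n hn
    rw [Finset.mem_filter] at hn ⊢
    exact ⟨hn.1, hn.2.1⟩
  -- the sum over the sets
  have h2 : ∑ F ∈ 𝓕, (C * s * F.card * lx) ^ F.card * W ≤ 2 * y * W := by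
    rw [← Finset.sum_mul]
    refine mul_le_mul_of_nonneg_right ?_ hW
    calc ∑ F ∈ 𝓕, (C * s * F.card * lx) ^ F.card ≤
        ∑ F ∈ T.powerset, (if 1 ≤ F.card then (C * s * F.card * lx) ^ F.card else 0) := by
          rw [h𝓕, Finset.sum_filter]
          refine Finset.sum_le_sum fun F _ => ?_
          by_cases hF : F.Nonempty
          · have hF1 : 1 ≤ F.card := Finset.card_pos.2 hF
            rw [if_pos hF1]
            split_ifs
            · exact le_rfl
            · positivity
          · rw [if_neg fun h => hF h.1]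
            split_ifs
            · positivity
            · exact le_rfl
      _ = ∑ k ∈ range (T.card + 1), T.card.choose k •
          (if 1 ≤ k then (C * s * k * lx) ^ k else 0) :=
          Finset.sum_powerset_apply_card (fun k => if 1 ≤ k then (C * s * k * lx) ^ k else 0)
      _ ≤ ∑ k ∈ range (T.card + 1), (if 1 ≤ k then y ^ k else 0) := by
          refine Finset.sum_le_sum fun k _ => ?_
          split_ifs with hk
          · rw [nsmul_eq_mul]
            have e1 := choose_bound T.card k (u := C * s * lx) (by positivity)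
            have e2 : C * s * k * lx = C * s * lx * k := by ring
            rw [e2]
            refine e1.trans (pow_le_pow_left₀ (by positivity) hy k)
          · rw [smul_zero]
      _ ≤ 2 * y := geo_bound hy0 hy2 _
  exact (h1.trans hsw).trans h2

open Classical in
lemma step2 {k : ℕ} (hk : 1 ≤ k) (hkK : k ≤ K)
    (hE : ∀ F ⊆ T, F.Nonempty → F.card ≤ K →
      (((cell α z t j).filter (fun n => ¬ Big α g T t x n ∧ F ⊆ hits α g T t n)).card : ℝ) ≤
        (C * F.card * lx) ^ F.card * W)
    (hC : 0 ≤ C) (hlx : 0 ≤ lx) (hW : 0 ≤ W) :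
    (((cell α z t j).filter (fun n => ¬ Big α g T t x n ∧ K < (hits α g T t n).card)).card : ℝ) *
      ((K + 1).choose k) ≤ (Real.exp 1 * (C * lx * T.card)) ^ k * W := by
  set 𝓕 : Finset (Finset ℕ) := T.powersetCard k with h𝓕
  have hsw := swap (α := α) (g := g) (t := t) (x := x) (z := z) (j := j) (T := T) 𝓕
    (fun F => (C * k * lx) ^ k * W) (fun _ => 1) (fun F hF => by
      rw [h𝓕, Finset.mem_powersetCard] at hF
      have := hE F hF.1 (Finset.card_pos.1 (by omega)) (by omega)
      rw [hF.2] at this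
      rw [mul_one]
      exact this)
  rw [Finset.sum_const, h𝓕, Finset.card_powersetCard, nsmul_eq_mul] at hsw
  -- pointwise
  have hpt : ∀ n, K < (hits α g T t n).card → ((K + 1).choose k : ℝ) ≤
      ∑ F ∈ (T.powersetCard k).filter (fun F => F ⊆ hits α g T t n), (1 : ℝ) := by
    intro n hn
    have e1 : (T.powersetCard k).filter (fun F => F ⊆ hits α g T t n) =
        (hits α g T t n).powersetCard k := by
      ext F
      rw [Finset.mem_filter, Finset.mem_powersetCard, Finset.mem_powersetCard]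
      exact ⟨fun h => ⟨h.2, h.1.2⟩, fun h => ⟨⟨h.1.trans (hits_sub n), h.2⟩, h.1⟩⟩
    rw [e1, Finset.sum_const, Finset.card_powersetCard, nsmul_eq_mul, mul_one]
    have e5 : (K + 1).choose k ≤ ((hits α g T t n).card).choose k := Nat.choose_le_choose k hn
    exact_mod_cast e5
  have h1 : (((cell α z t j).filter
      (fun n => ¬ Big α g T t x n ∧ K < (hits α g T t n).card)).card : ℝ) *
      ((K + 1).choose k : ℝ) ≤
      ∑ n ∈ (cell α z t j).filter (fun n => ¬ Big α g T t x n),
        ∑ F ∈ (T.powersetCard k).filter (fun F => F ⊆ hits α g T t n), (1 : ℝ) := by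
    rw [← nsmul_eq_mul, ← Finset.sum_const]
    refine (Finset.sum_le_sum fun n hn => hpt n (Finset.mem_filter.1 hn).2.2).trans ?_
    refine Finset.sum_le_sum_of_subset_of_nonneg ?_ fun n _ _ => Finset.sum_nonneg fun F _ => by
      positivity
    intro n hn
    rw [Finset.mem_filter] at hn ⊢
    exact ⟨hn.1, hn.2.1⟩
  have h2 := h1.trans hsw
  have h3 := choose_bound T.card k (u := C * lx) (by positivity)
  have e7 : (C * k * lx) ^ k = (C * lx * k) ^ k := by
    congr 1
    ring
  rw [e7, ← mul_assoc] at h2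
  exact h2.trans (mul_le_mul_of_nonneg_right h3 hW)

end block

open Classical in
theorem ex (α : ℝ) (hα : 1 < α) (g : ℕ → ℝ) (h : S_K α g) (hR : S_RB α g) : S_EX α g := by
  obtain ⟨C, hC1, P1, h4⟩ := h
  obtain ⟨c1, hc1, P2, hR⟩ := hR
  obtain ⟨C3, hC3, hcard⟩ := card_primes
  have hC0 : 0 < C := by linarith
  set e1 : ℝ := Real.exp 1 with he1d
  have he1 : 0 < e1 := Real.exp_pos 1
  set s1 : ℝ := min (1 / 2) (1 / (8 * e1 * C * C3)) with hs1d
  have hs10 : 0 < s1 := lt_min (by norm_num) (by positivity)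
  have hs11 : s1 ≤ 1 / 2 := min_le_left _ _
  have hs12 : 4 * e1 * C * s1 * C3 ≤ 1 / 2 := by
    have h1 : s1 ≤ 1 / (8 * e1 * C * C3) := min_le_right _ _
    calc 4 * e1 * C * s1 * C3 = (4 * e1 * C * C3) * s1 := by ring
      _ ≤ (4 * e1 * C * C3) * (1 / (8 * e1 * C * C3)) := by gcongr
      _ = 1 / 2 := by
        field_simp
        norm_num
  set M : ℝ := 2 * e1 ^ 2 * C * C3 + 2 with hMd
  have hM2 : 2 ≤ M := by
    have : 0 < 2 * e1 ^ 2 * C * C3 := by positivity
    linarith
  have hM0 : 0 < M := by linarith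
  set c : ℝ := min c1 (1 / M) / 2 with hcd
  have hmin0 : 0 < min c1 (1 / M) := lt_min hc1 (by positivity)
  have hc0 : 0 < c := by positivity
  have hc2 : 2 * c = min c1 (1 / M) := by
    rw [hcd]
    ring
  have hc_1 : 2 * c ≤ c1 := hc2 ▸ min_le_left _ _
  have hc_2 : 2 * c ≤ 1 / M := hc2 ▸ min_le_right _ _
  -- large `x`
  have hlog : Tendsto (fun x : ℕ => Real.log x) atTop atTop :=
    Real.tendsto_log_atTop.comp tendsto_natCast_atTop_atTop
  have hsq : Tendsto (fun x : ℕ => √(Real.log x)) atTop atTop :=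
    Real.tendsto_sqrt_atTop.comp hlog
  have hcast : Tendsto (fun x : ℕ => (x : ℝ)) atTop atTop := tendsto_natCast_atTop_atTop
  have hev : ∀ᶠ x : ℕ in atTop, P1 ≤ x ∧ P2 ≤ x ∧ 2 ≤ x ∧ 1 ≤ Real.log x ∧
      M + 1 ≤ √(Real.log x) ∧ Real.log (1 + Real.exp 2) / c ≤ √(Real.log x) ∧
      12 / c1 ^ 3 ≤ (x : ℝ) := by
    filter_upwards [eventually_ge_atTop P1, eventually_ge_atTop P2, eventually_ge_atTop 2,
      hlog.eventually_ge_atTop 1, hsq.eventually_ge_atTop (M + 1),
      hsq.eventually_ge_atTop (Real.log (1 + Real.exp 2) / c),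
      hcast.eventually_ge_atTop (12 / c1 ^ 3)] with x g1 g2 g3 g4 g5 g6 g7
    exact ⟨g1, g2, g3, g4, g5, g6, g7⟩
  obtain ⟨P, hP⟩ := eventually_atTop.1 hev
  refine ⟨s1, 4 * e1 * C * s1 + 1, c, hs10, hs11, by positivity, hc0, P,
    fun x hx T hT z hz t ht j hj1 hj2 => ?_⟩
  obtain ⟨hx1, hx2, hx3, hL1, hLM, hLc, hx12⟩ := hP x hx
  have hx0 : (0 : ℝ) < x := by
    have : (2 : ℝ) ≤ x := by exact_mod_cast hx3
    linarith
  set L : ℝ := Real.log x with hLd
  have hL0 : 0 < L := by linarith
  set lx : ℝ := L / x with hlxd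
  have hlx0 : 0 < lx := by positivity
  set W : ℝ := α ^ (t - z) with hWd
  have hb0 : (0 : ℝ) < α := by linarith
  have hW0 : 0 < W := by positivity
  set K : ℕ := ⌊√L⌋₊ with hKd
  have hT' : ∀ p ∈ T, x < p ∧ p ≤ 2 * x := fun p hp => (hT p hp).2
  have hKL : (K : ℝ) ≤ √L := Nat.floor_le (Real.sqrt_nonneg _)
  have hKL' : √L < K + 1 := Nat.lt_floor_add_one _
  have hE : ∀ F ⊆ T, F.Nonempty → F.card ≤ K →
      (((cell α z t j).filter (fun n => ¬ Big α g T t x n ∧ F ⊆ hits α g T t n)).card : ℝ) ≤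
        (C * F.card * lx) ^ F.card * W := by
    intro F hFT hF hFK
    refine le_trans ?_ (h4 x hx1 F hF (fun p hp => hT' p (hFT hp)) (by
      have h5 : (F.card : ℝ) ≤ √L := (Nat.cast_le.2 hFK).trans hKL
      calc (F.card : ℝ) ^ 2 ≤ (√L) ^ 2 := pow_le_pow_left₀ (Nat.cast_nonneg _) h5 2
        _ = L := Real.sq_sqrt hL0.le) z hz t ht j hj1 hj2)
    refine Nat.cast_le.2 (Finset.card_le_card ?_)
    intro n hn
    rw [Finset.mem_filter] at hn ⊢
    refine ⟨hn.1, ?_, ?_⟩
    · rintro ⟨p, hp, hp'⟩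
      exact hn.2.1 ⟨p, hFT hp, hp'⟩
    · intro p hp
      have h6 := hn.2.2 hp
      unfold hits at h6 ⊢
      rw [Finset.mem_filter] at h6 ⊢
      exact ⟨hp, h6.2⟩
  -- the weights
  have hT3 : lx * T.card ≤ C3 := by
    have h5 := hcard x hx3 T hT
    calc lx * T.card ≤ lx * (C3 * x / L) := mul_le_mul_of_nonneg_left h5 hlx0.le
      _ = C3 := by
        rw [hlxd]
        field_simp
  have hV1 : VT T ≤ 2 * C3 := by
    have h5 : VT T ≤ T.card • (2 * L / x) := by
      unfold VT
      exact Finset.sum_le_card_nsmul _ _ _ fun p hp => log_div_le hx3 (hT' p hp).1 (hT' p hp).2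
    rw [nsmul_eq_mul] at h5
    have h6 : (T.card : ℝ) * (2 * L / x) = 2 * (lx * T.card) := by
      rw [hlxd]
      ring
    linarith
  have hV2 : lx * T.card ≤ 2 * VT T := by
    have h5 : T.card • (L / (2 * x)) ≤ VT T := by
      unfold VT
      refine Finset.card_nsmul_le_sum _ _ _ fun p hp => ?_
      obtain ⟨g1, g2⟩ := hT' p hp
      have g3 : (x : ℝ) ≤ p := by exact_mod_cast g1.le
      have g4 : (p : ℝ) ≤ 2 * x := by exact_mod_cast g2
      have g5 : L ≤ Real.log p := Real.log_le_log hx0 g3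
      exact div_le_div₀ (by linarith) g5 (by linarith) g4
    rw [nsmul_eq_mul] at h5
    have h6 : (T.card : ℝ) * (L / (2 * x)) = (lx * T.card) / 2 := by
      rw [hlxd]
      field_simp
    linarith
  have hV0 : 0 ≤ VT T := by
    have : 0 ≤ lx * T.card := by positivity
    linarith
  -- STEP 1
  have hy1 : Real.exp 1 * (C * s1 * lx * T.card) ≤ 2 * e1 * C * s1 * VT T := by
    have h5 : Real.exp 1 * (C * s1 * lx * T.card) = e1 * C * s1 * (lx * T.card) := by
      rw [he1d]
      ring
    rw [h5]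
    calc e1 * C * s1 * (lx * T.card) ≤ e1 * C * s1 * (2 * VT T) :=
          mul_le_mul_of_nonneg_left hV2 (by positivity)
      _ = _ := by ring
  have hy2 : 2 * e1 * C * s1 * VT T ≤ 1 / 2 := by
    calc 2 * e1 * C * s1 * VT T ≤ 2 * e1 * C * s1 * (2 * C3) :=
          mul_le_mul_of_nonneg_left hV1 (by positivity)
      _ = 4 * e1 * C * s1 * C3 := by ring
      _ ≤ 1 / 2 := hs12
  have hS1 := step1 (α := α) (g := g) (x := x) hs10.le hE hC0.le hlx0.le hW0.le hy1 hy2
  -- STEP 2
  set c2 : ℝ := (((cell α z t j).filter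
    (fun n => ¬ Big α g T t x n ∧ K < (hits α g T t n).card)).card : ℝ) with hc2d
  have hS2 : c2 ≤ Real.exp (2 - √L / M) * W := by
    have hKM : M ≤ K := by linarith
    set k : ℕ := ⌊(K : ℝ) / M⌋₊ with hkd
    have hk1 : 1 ≤ k := by
      apply Nat.le_floor
      rw [Nat.cast_one, le_div_iff₀ hM0]
      linarith
    have hkM : (k : ℝ) ≤ K / M := Nat.floor_le (by positivity)
    have hkM' : (K : ℝ) / M < k + 1 := Nat.lt_floor_add_one _
    have hk0 : (0 : ℝ) < k := by exact_mod_cast hk1
    have hkMK : (k : ℝ) * M ≤ K := by rwa [le_div_iff₀ hM0] at hkM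
    have h2k : 2 * k ≤ K := by
      have : (2 : ℝ) * k ≤ K := by nlinarith
      exact_mod_cast this
    have h5 := step2 (α := α) (g := g) (x := x) (C := C) (lx := lx) (W := W) hk1 (by omega)
      hE hC0.le hlx0.le hW0.le
    have h6 := choose_low hk1 h2k
    have h7 : M / 2 ≤ (K : ℝ) / (2 * k) := by
      rw [div_le_div_iff₀ (by norm_num) (by positivity)]
      nlinarith
    set G : ℝ := e1 * C * C3 with hGd
    have hG0 : 0 < G := by positivity
    have h8 : e1 * G ≤ M / 2 := by
      rw [hMd, hGd]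
      nlinarith
    have h9 : (e1 * G) ^ k ≤ ((K + 1).choose k : ℝ) :=
      (pow_le_pow_left₀ (by positivity) (h8.trans h7) k).trans h6
    have h10 : (Real.exp 1 * (C * lx * T.card)) ^ k ≤ G ^ k := by
      refine pow_le_pow_left₀ (by positivity) ?_ k
      have : Real.exp 1 * (C * lx * T.card) = e1 * C * (lx * T.card) := by
        rw [he1d]
        ring
      rw [this, hGd]
      exact mul_le_mul_of_nonneg_left hT3 (by positivity)
    have hc20 : 0 ≤ c2 := Nat.cast_nonneg _
    have h11 : c2 * (e1 * G) ^ k ≤ G ^ k * W :=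
      calc c2 * (e1 * G) ^ k ≤ c2 * ((K + 1).choose k : ℝ) := mul_le_mul_of_nonneg_left h9 hc20
        _ ≤ (Real.exp 1 * (C * lx * T.card)) ^ k * W := h5
        _ ≤ G ^ k * W := mul_le_mul_of_nonneg_right h10 hW0.le
    have h12 : c2 * e1 ^ k ≤ W := by
      have hGk : 0 < G ^ k := by positivity
      refine le_of_mul_le_mul_right ?_ hGk
      calc c2 * e1 ^ k * G ^ k = c2 * (e1 * G) ^ k := by rw [mul_pow]; ring
        _ ≤ G ^ k * W := h11
        _ = W * G ^ k := mul_comm _ _
    have h13 : e1 ^ k = Real.exp k := by rw [he1d, ← Real.exp_nat_mul, mul_one]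
    rw [h13] at h12
    have h14 : √L / M - 2 ≤ k := by
      have g1 : (√L - 1) / M ≤ K / M := by
        apply div_le_div_of_nonneg_right _ hM0.le
        linarith
      have g2 : (√L - 1) / M = √L / M - 1 / M := by ring
      have g3 : 1 / M ≤ 1 := by
        rw [div_le_iff₀ hM0]
        linarith
      linarith
    have h15 : Real.exp (√L / M - 2) ≤ Real.exp k := Real.exp_le_exp.2 h14
    have h16 : c2 * Real.exp (√L / M - 2) ≤ W :=
      (mul_le_mul_of_nonneg_left h15 hc20).trans h12
    have h17 : Real.exp (2 - √L / M) * Real.exp (√L / M - 2) = 1 := by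
      rw [← Real.exp_add]
      simp
    calc c2 = Real.exp (2 - √L / M) * (c2 * Real.exp (√L / M - 2)) := by
          rw [mul_left_comm, h17, mul_one]
      _ ≤ Real.exp (2 - √L / M) * W := mul_le_mul_of_nonneg_left h16 (Real.exp_pos _).le
  -- STEP 3
  set cB : ℝ := (((cell α z t j).filter (fun n => Big α g T t x n)).card : ℝ) with hcBd
  have hS3 : cB ≤ Real.exp (-(c1 * x)) * W := hR x hx2 T hT' z hz t ht j hj1 hj2
  have hcB0 : 0 ≤ cB := Nat.cast_nonneg _
  have hsqL : √L ≤ L := by
    rw [Real.sqrt_le_left hL0.le]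
    nlinarith
  have hLx : L ≤ x := by
    have := Real.log_le_sub_one_of_pos hx0
    linarith
  have hs1p : ∀ n : ℕ, (1:ℝ) ≤ (1 + s1) ^ n := fun n => one_le_pow₀ (by linarith)
  constructor
  · -- (a)
    rcases T.eq_empty_or_nonempty with rfl | hTne
    · have h5 : ∀ n, (hits α g ∅ t n).card = 0 := fun n => by
        unfold hits
        rw [Finset.filter_empty, Finset.card_empty]
      have h6 : VT ∅ = 0 := Finset.sum_empty
      rw [h6, mul_zero, zero_mul]
      refine le_of_eq (Finset.sum_eq_zero fun n _ => ?_)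
      rw [h5, pow_zero, sub_self]
    · rw [← Finset.sum_filter_add_sum_filter_not _ (fun n => Big α g T t x n)]
      have hA : ∑ n ∈ ((cell α z t j).filter
          (fun n => ((hits α g T t n).card : ℝ) ≤ √L)).filter
          (fun n => ¬ Big α g T t x n), ((1 + s1) ^ (hits α g T t n).card - 1) ≤
          2 * (2 * e1 * C * s1 * VT T) * W := by
        refine le_trans (Finset.sum_le_sum_of_subset_of_nonneg ?_ fun n _ _ =>
          sub_nonneg.2 (hs1p _)) hS1
        intro n hn
        rw [Finset.mem_filter, Finset.mem_filter] at hn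
        rw [Finset.mem_filter]
        exact ⟨hn.1.1, hn.2, Nat.le_floor hn.1.2⟩
      have hB : ∑ n ∈ ((cell α z t j).filter
          (fun n => ((hits α g T t n).card : ℝ) ≤ √L)).filter
          (fun n => Big α g T t x n), ((1 + s1) ^ (hits α g T t n).card - 1) ≤
          cB * Real.exp (√L) := by
        have h5 : ∀ n ∈ ((cell α z t j).filter
            (fun n => ((hits α g T t n).card : ℝ) ≤ √L)).filter (fun n => Big α g T t x n),
            (1 + s1) ^ (hits α g T t n).card - 1 ≤ Real.exp (√L) := by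
          intro n hn
          rw [Finset.mem_filter, Finset.mem_filter] at hn
          have g1 : 1 + s1 ≤ Real.exp 1 := by
            have := Real.add_one_le_exp (1 : ℝ)
            linarith
          have g2 : (1 + s1) ^ (hits α g T t n).card ≤ Real.exp 1 ^ (hits α g T t n).card :=
            pow_le_pow_left₀ (by linarith) g1 _
          rw [← Real.exp_nat_mul, mul_one] at g2
          have g3 : Real.exp ((hits α g T t n).card : ℝ) ≤ Real.exp (√L) :=
            Real.exp_le_exp.2 hn.1.2
          linarith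
        refine (Finset.sum_le_card_nsmul _ _ _ h5).trans ?_
        rw [nsmul_eq_mul]
        refine mul_le_mul_of_nonneg_right ?_ (Real.exp_pos _).le
        rw [hcBd]
        refine Nat.cast_le.2 (Finset.card_le_card ?_)
        intro n hn
        rw [Finset.mem_filter, Finset.mem_filter] at hn
        exact Finset.mem_filter.2 ⟨hn.1.1, hn.2⟩
      have hC' : cB * Real.exp (√L) ≤ VT T * W := by
        have g1 : Real.exp (√L) ≤ x := by
          calc Real.exp (√L) ≤ Real.exp L := Real.exp_le_exp.2 hsqL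
            _ = x := Real.exp_log hx0
        have g2 : 1 / (2 * x) ≤ VT T := by
          have h5 : (1 : ℝ) ≤ T.card := by exact_mod_cast Finset.card_pos.2 hTne
          have h6 : lx ≤ lx * T.card := le_mul_of_one_le_right hlx0.le h5
          have h7 : 1 / x ≤ lx := by
            rw [hlxd]
            exact div_le_div_of_nonneg_right hL1 hx0.le
          have h8 : 1 / (2 * (x : ℝ)) = (1 / x) / 2 := by
            field_simp
          rw [h8]
          linarith
        have g3 : 2 * (x : ℝ) ^ 2 * Real.exp (-(c1 * x)) ≤ 1 := by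
          have h5 : (c1 * x) ^ 3 / (Nat.factorial 3 : ℕ) ≤ Real.exp (c1 * x) :=
            Real.pow_div_factorial_le_exp _ (by positivity) 3
          have h6 : ((Nat.factorial 3 : ℕ) : ℝ) = 6 := by norm_num [Nat.factorial]
          rw [h6] at h5
          rw [Real.exp_neg, ← div_eq_mul_inv, div_le_one (Real.exp_pos _)]
          refine le_trans ?_ h5
          rw [div_le_iff₀ (by positivity)] at hx12
          rw [le_div_iff₀ (by norm_num), mul_pow]
          nlinarith [sq_nonneg (x : ℝ), mul_le_mul_of_nonneg_right hx12 (sq_nonneg (x : ℝ))]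
        calc cB * Real.exp (√L) ≤ (Real.exp (-(c1 * x)) * W) * x :=
              mul_le_mul hS3 g1 (Real.exp_pos _).le (by positivity)
          _ = (2 * (x : ℝ) ^ 2 * Real.exp (-(c1 * x))) * (1 / (2 * x)) * W := by
              field_simp
          _ ≤ 1 * (1 / (2 * x)) * W := by gcongr
          _ ≤ VT T * W := by
              rw [one_mul]
              exact mul_le_mul_of_nonneg_right g2 hW0.le
      calc _ ≤ cB * Real.exp (√L) + 2 * (2 * e1 * C * s1 * VT T) * W := add_le_add hB hA
        _ ≤ VT T * W + 2 * (2 * e1 * C * s1 * VT T) * W := by linarith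
        _ = _ := by ring
  · -- (b)
    have h5 : (((cell α z t j).filter
        (fun n => √L < ((hits α g T t n).card : ℝ))).card : ℝ) ≤ cB + c2 := by
      rw [hcBd, hc2d]
      norm_cast
      refine le_trans (Finset.card_le_card (t := (cell α z t j).filter (fun n => Big α g T t x n) ∪
        (cell α z t j).filter (fun n => ¬ Big α g T t x n ∧ K < (hits α g T t n).card)) ?_)
          (Finset.card_union_le _ _)
      intro n hn
      rw [Finset.mem_filter] at hn
      rw [Finset.mem_union, Finset.mem_filter, Finset.mem_filter]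
      by_cases g1 : Big α g T t x n
      · exact Or.inl ⟨hn.1, g1⟩
      · refine Or.inr ⟨hn.1, g1, ?_⟩
        have : (K : ℝ) < ((hits α g T t n).card : ℝ) := lt_of_le_of_lt hKL hn.2
        exact_mod_cast this
    set Q : ℝ := Real.exp (-(2 * c * √L)) with hQd
    have hsqL0 : 0 ≤ √L := Real.sqrt_nonneg _
    have q1 : Real.exp (-(c1 * x)) ≤ Q := by
      apply Real.exp_le_exp.2
      have : 2 * c * √L ≤ c1 * x := mul_le_mul hc_1 (hsqL.trans hLx) hsqL0 hc1.le
      linarith
    have q2 : Real.exp (2 - √L / M) ≤ Real.exp 2 * Q := by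
      rw [hQd, ← Real.exp_add]
      apply Real.exp_le_exp.2
      have : 2 * c * √L ≤ 1 / M * √L := mul_le_mul_of_nonneg_right hc_2 hsqL0
      have g1 : 1 / M * √L = √L / M := by ring
      linarith
    have q4 : 1 + Real.exp 2 ≤ Real.exp (c * √L) := by
      rw [div_le_iff₀ hc0] at hLc
      have g1 : 0 < 1 + Real.exp 2 := by positivity
      rw [← Real.exp_log g1]
      apply Real.exp_le_exp.2
      linarith
    have q5 : Real.exp (c * √L) * Q = Real.exp (-(c * √L)) := by
      rw [hQd, ← Real.exp_add]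
      congr 1
      ring
    have hQ0 : 0 < Q := Real.exp_pos _
    calc (((cell α z t j).filter
        (fun n => √L < ((hits α g T t n).card : ℝ))).card : ℝ) ≤ cB + c2 := h5
      _ ≤ Q * W + Real.exp 2 * Q * W := by
          refine add_le_add (hS3.trans ?_) (hS2.trans ?_)
          · exact mul_le_mul_of_nonneg_right q1 hW0.le
          · exact mul_le_mul_of_nonneg_right q2 hW0.le
      _ = (1 + Real.exp 2) * Q * W := by ring
      _ ≤ Real.exp (c * √L) * Q * W := by gcongr
      _ = _ := by rw [q5]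

end Pool.Agent.N966.GW

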